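import Pool.Agent.H774Z.Tree.Weak

/-!
Q2 fails: for weakly compact `κ`, non-`κ`-special tree `→ (κ ^ n)²_ω` is false for every `n ≥ 2`.
The definitions are in `Pool.Agent.H774Z.Tree.Defs`.
-/

set_option autoImplicit false

universe u

namespace Pool.Agent.Results.MP_7e5099_lc.ANotArrowQ2

open Cardinal Pool.Agent.H774Z.Tree

/-- For weakly compact `κ` and `n ≥ 2` some non-`κ`-special tree fails `T → (κ ^ n)²_ω`. -/
theorem result (κ : Cardinal.{u}) (hκ : WeaklyCompact κ) (n : ℕ) (hn : 2 ≤ n) :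
    ∃ (T : Type u) (_ : PartialOrder T),
      IsTree T ∧ ¬ Special T κ ∧ ¬ Arrow T (κ.ord ^ n) ℵ₀ := by
  refine main hκ.regular le_rfl le_rfl ?_
  have h0 : Ordinal.omega0 ≤ κ.ord := by rw [← ord_aleph0]; exact ord_le_ord.2 hκ.1.le
  have h2 : (2 : Ordinal.{u}) ≤ κ.ord := (Ordinal.natCast_lt_omega0 2).le.trans h0
  calc κ.ord + 2 ≤ κ.ord + κ.ord := add_le_add_right h2 _
    _ = κ.ord * 2 := (Ordinal.mul_two _).symm
    _ ≤ κ.ord * κ.ord := mul_le_mul_right h2 _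
    _ = κ.ord ^ 2 := (pow_two _).symm
    _ ≤ κ.ord ^ n := pow_le_pow_right' (one_le_two.trans h2) hn

end Pool.Agent.Results.MP_7e5099_lc.ANotArrowQ2
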